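import Pool.Agent.H37.SB.Targets

/-!
Module AUT (board sqb_modules): a sharply transitive set of automorphisms.
-/

set_option autoImplicit false

namespace Pool.Agent.H67.SB

open Pool.Agent.H37.SB

theorem pf_AUT : T_AUT := by
  intro ι _ _ _
  classical
  have hp : Fact (Nat.Prime 2) := ⟨Nat.prime_two⟩
  set n := Fintype.card ι with hn
  have hn0 : n ≠ 0 := Fintype.card_ne_zero
  let E := GaloisField 2 n
  have hfin : Finite E := inferInstanceAs (Finite (GaloisField 2 n))
  have hft : Fintype E := Fintype.ofFinite E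
  have hcard : Nat.card E = 2 ^ n := GaloisField.card 2 n hn0
  have hrank : Module.finrank (ZMod 2) E = n := GaloisField.finrank 2 hn0
  have hrank2 : Module.finrank (ZMod 2) (ι → ZMod 2) = n := by
    rw [Module.finrank_fintype_fun_eq_card]
  let e : (ι → ZMod 2) ≃ₗ[ZMod 2] E := LinearEquiv.ofFinrankEq _ _ (hrank2.trans hrank.symm)
  have hc : Fintype.card {x : E // x ≠ 0} = 2 ^ n - 1 := by
    rw [Fintype.card_subtype_compl, Fintype.card_subtype_eq, ← Nat.card_eq_fintype_card, hcard]
  let b : {x : E // x ≠ 0} ≃ Fin (2 ^ n - 1) := Fintype.equivFinOfCardEq hc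
  let μ : {x : E // x ≠ 0} → (E ≃+ E) := fun x =>
    { toFun := fun y => x.1 * y
      invFun := fun y => x.1⁻¹ * y
      left_inv := fun y => by
        show x.1⁻¹ * (x.1 * y) = y
        rw [← mul_assoc, inv_mul_cancel₀ x.2, one_mul]
      right_inv := fun y => by
        show x.1 * (x.1⁻¹ * y) = y
        rw [← mul_assoc, mul_inv_cancel₀ x.2, one_mul]
      map_add' := fun y z => mul_add _ _ _ }
  refine ⟨fun u => (e.toAddEquiv.trans (μ (b.symm u))).trans e.toAddEquiv.symm, ?_⟩
  intro s s' hs hs'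
  have hes : e s ≠ 0 := fun h => hs (e.map_eq_zero_iff.1 h)
  have hes' : e s' ≠ 0 := fun h => hs' (e.map_eq_zero_iff.1 h)
  have key : ∀ u, ((e.toAddEquiv.trans (μ (b.symm u))).trans e.toAddEquiv.symm) s = s' ↔
      (b.symm u).1 * e s = e s' := by
    intro u
    constructor
    · intro h
      rw [← h]
      show _ = e (e.symm ((b.symm u).1 * e s))
      rw [LinearEquiv.apply_symm_apply]
    · intro h
      show e.symm ((b.symm u).1 * e s) = s'
      rw [h, LinearEquiv.symm_apply_apply]
  refine ⟨b ⟨e s' / e s, div_ne_zero hes' hes⟩, ?_, ?_⟩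
  · show ((e.toAddEquiv.trans (μ (b.symm (b ⟨e s' / e s, _⟩)))).trans e.toAddEquiv.symm) s = s'
    rw [key, Equiv.symm_apply_apply]
    exact div_mul_cancel₀ _ hes
  · intro u hu
    have h1 := (key u).1 hu
    have h2 : b.symm u = ⟨e s' / e s, div_ne_zero hes' hes⟩ := by
      apply Subtype.ext
      show (b.symm u).1 = e s' / e s
      rw [eq_div_iff hes, h1]
    rw [← h2, Equiv.apply_symm_apply]

end Pool.Agent.H67.SB
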